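import Pool.Agent.H695R3.PP.Stmts

set_option autoImplicit false

open scoped BigOperators ENNReal
open MeasureTheory

namespace Pool.Agent.H695R3.PP

theorem Iso_cov (c : ℝ) (g : ℝ → ℝ≥0∞) (s : Set ℝ) (hs : MeasurableSet s) (h0 : (0 : ℝ) ∉ s) :
    ∫⁻ z in s, UR c g z ^ 2 = ∫⁻ y in (fun z : ℝ => c - z⁻¹) '' s, g y ^ 2 := by
  have hne : ∀ z ∈ s, z ≠ 0 := fun z hz h => h0 (h ▸ hz)
  have hd : ∀ z ∈ s, HasDerivWithinAt (fun z : ℝ => c - z⁻¹) ((z ^ 2)⁻¹) s z := by
    intro z hz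
    have h := ((hasDerivAt_inv (hne z hz)).const_sub c).hasDerivWithinAt (s := s)
    simpa using h
  have hinj : Set.InjOn (fun z : ℝ => c - z⁻¹) s := by
    intro x _ y _ h
    have h' : c - x⁻¹ = c - y⁻¹ := h
    exact inv_injective (by linarith)
  rw [lintegral_image_eq_lintegral_abs_deriv_mul hs hd hinj (fun y => g y ^ 2)]
  refine setLIntegral_congr_fun hs fun z hz => ?_
  change (ENNReal.ofReal |z|⁻¹ * g (c - z⁻¹)) ^ 2 = ENNReal.ofReal |(z ^ 2)⁻¹| * g (c - z⁻¹) ^ 2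
  rw [mul_pow, ← ENNReal.ofReal_pow (by positivity)]
  congr 2
  rw [abs_inv, abs_pow, inv_pow]

theorem taskIso : TaskIso := by
  intro c g _
  constructor
  · unfold nsqL
    have h1 : ∫⁻ z, UR c g z ^ 2 = ∫⁻ z in {(0 : ℝ)}ᶜ, UR c g z ^ 2 := by
      rw [← setLIntegral_univ]
      refine setLIntegral_congr ?_
      exact (MeasureTheory.ae_eq_univ.2 (by simp)).symm
    have h2 : ∫⁻ y, g y ^ 2 = ∫⁻ y in {c}ᶜ, g y ^ 2 := by
      rw [← setLIntegral_univ]
      refine setLIntegral_congr ?_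
      exact (MeasureTheory.ae_eq_univ.2 (by simp)).symm
    have h3 : (fun z : ℝ => c - z⁻¹) '' {(0 : ℝ)}ᶜ = {c}ᶜ := by
      ext y
      simp only [Set.mem_image, Set.mem_compl_iff, Set.mem_singleton_iff]
      constructor
      · rintro ⟨z, hz, rfl⟩ h
        have : z⁻¹ = 0 := by linarith
        exact hz (inv_eq_zero.1 this)
      · intro hy
        have : c - y ≠ 0 := fun h => hy (by linarith)
        exact ⟨(c - y)⁻¹, inv_ne_zero this, by rw [inv_inv]; ring⟩
    rw [h1, h2, Iso_cov c g _ (measurableSet_singleton _).compl (by simp), h3]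
  · have hm : MeasurableSet {z : ℝ | 1 < |z|} := measurableSet_lt measurable_const measurable_abs
    rw [Iso_cov c g _ hm (by simp)]
    refine lintegral_mono_set ?_
    rintro _ ⟨z, hz, rfl⟩
    have hz' : 1 < |z| := hz
    have h1 : |z⁻¹| ≤ 1 := by
      rw [abs_inv]
      exact inv_le_one_of_one_le₀ hz'.le
    have h2 := abs_le.1 h1
    exact ⟨by simp only; linarith [h2.2], by simp only; linarith [h2.1]⟩

end Pool.Agent.H695R3.PP
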